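import Pool.Agent.MP0402b8.Quot
import Pool.Agent.MP0402b8.Cons
import Pool.Agent.MP0402b8.Double
import Pool.Agent.MP0402b8.Prd
import Pool.Agent.MP0402b8.Idm

set_option autoImplicit false

namespace Pool.Agent.Results.MP_0402b8_an.Subspaces

open Pool.Agent.MP0402b8

section

variable {A B : Type} [NormedAddCommGroup A] [NormedSpace ℝ A] [NormedAddCommGroup B]
  [NormedSpace ℝ B]


variable {X Q Y W : Type} [NormedAddCommGroup X] [NormedSpace ℝ X]
  [NormedAddCommGroup Y] [NormedSpace ℝ Y] [NormedAddCommGroup Q] [NormedSpace ℝ Q]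
  [NormedAddCommGroup W] [NormedSpace ℝ W]

lemma HU_comm : HU (Q × Y) (Y × Q) := HU_of_cle (ContinuousLinearEquiv.prodComm ℝ Q Y)

lemma HU_assoc : HU ((Q × Y) × W) (Q × (Y × W)) :=
  HU_of_cle (ContinuousLinearEquiv.prodAssoc ℝ Q Y W)

/-- if `X ~ Q × Y` then `ℓ₂(X) ~ Y × ℓ₂(X)` -/
lemma absorb (h : HU X (Q × Y)) : HU (l2 X) (Y × l2 X) := by
  have h1 : HU (l2 X) (l2 Q × l2 Y) := (l2_functor h).trans Prd.l2_prod
  have h2 : HU (l2 Q × l2 Y) (l2 Q × (Y × l2 Y)) := HU.prod HU.refl Cons.l2_cons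
  have h3 : HU (l2 Q × (Y × l2 Y)) ((Y × l2 Y) × l2 Q) := HU_comm
  have h4 : HU ((Y × l2 Y) × l2 Q) (Y × (l2 Y × l2 Q)) := HU_assoc
  have h5 : HU (Y × (l2 Y × l2 Q)) (Y × (l2 Q × l2 Y)) := HU.prod HU.refl HU_comm
  have h6 : HU (Y × (l2 Q × l2 Y)) (Y × l2 X) := HU.prod HU.refl h1.symm
  exact ((((h1.trans h2).trans h3).trans h4).trans h5).trans h6

/-- last step -/
lemma fin_step {V T : Type} [NormedAddCommGroup T] [NormedSpace ℝ T]
    [NormedAddCommGroup V] [NormedSpace ℝ V]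
    (b1 : HU Y (V × l2 T)) (e2 : HU (Y × l2 T) (l2 T)) : HU Y (l2 T) := by
  have b2 : HU (V × l2 T) (V × (l2 T × l2 T)) := HU.prod HU.refl Double.l2_double
  have b3 : HU (V × (l2 T × l2 T)) ((V × l2 T) × l2 T) := HU_assoc.symm
  have b4 : HU ((V × l2 T) × l2 T) (Y × l2 T) := HU.prod b1.symm HU.refl
  exact (((b1.trans b2).trans b3).trans b4).trans e2

end

/-- the unit spheres of `E` and `F` are uniformly homeomorphic -/
def SphereEquiv (E F : Type) [NormedAddCommGroup E] [NormedAddCommGroup F] : Prop :=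
  Nonempty (UniformEquiv (Metric.sphere (0 : E) 1) (Metric.sphere (0 : F) 1))

/-- The unit sphere of `V ⊕ ℓ₂(H)` is uniformly homeomorphic to that of `ℓ₂(H)`; and so is the
unit sphere of `V` itself, as soon as this is true for one closed subspace `W` of `V` or for one
quotient `V ⧸ W`. -/
def Absorbed (H V : Type) [NormedAddCommGroup H] [NormedAddCommGroup V] [NormedSpace ℝ V] :
    Prop :=
  SphereEquiv (V × l2 H) (l2 H) ∧
    ∀ (W : Submodule ℝ V) [IsClosed (W : Set V)],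
      (SphereEquiv W (l2 H) ∨ SphereEquiv (V ⧸ W) (l2 H)) → SphereEquiv V (l2 H)

lemma HU_of_superRefl (X : Type) [NormedAddCommGroup X] [NormedSpace ℝ X] [CompleteSpace X]
    (h : SuperRefl X) (Y : Submodule ℝ X) [IsClosed (Y : Set X)] : HU X ((X ⧸ Y) × Y) := by
  obtain ⟨Z, _, _, _, e, c, hc, hec⟩ := h
  exact HU_split Y (sec e c hc hec Y) (sec_mk e c hc hec Y)
    (fun t ht w => sec_smul e c hc hec Y t ht w) (sec_UB e c hc hec Y)

lemma superRefl_sub (X : Type) [NormedAddCommGroup X] [NormedSpace ℝ X]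
    (h : SuperRefl X) (Y : Submodule ℝ X) : SuperRefl Y := by
  obtain ⟨Z, i1, i2, i3, e, c, hc, hec⟩ := h
  exact ⟨Z, i1, i2, i3, e.comp Y.subtypeL, c, hc, fun y => hec y⟩

lemma absorbed_of {X H V Q : Type} [NormedAddCommGroup X] [NormedSpace ℝ X]
    [NormedAddCommGroup H] [NormedSpace ℝ H] [NormedAddCommGroup V] [NormedSpace ℝ V]
    [NormedAddCommGroup Q] [NormedSpace ℝ Q]
    (hX : HU X (l2 H)) (hV : HU X (Q × V))
    (hs : ∀ (W : Submodule ℝ V) [IsClosed (W : Set V)], HU V ((V ⧸ W) × W)) :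
    Absorbed H V := by
  have idem : HU (l2 (l2 H)) (l2 H) := Idm.l2_idem
  have e1 : HU (l2 X) (l2 H) := (l2_functor hX).trans idem
  have e2 : HU (V × l2 H) (l2 H) :=
    ((HU.prod HU.refl e1.symm).trans (absorb hV).symm).trans e1
  refine ⟨HU_imp_sphere e2, fun W hW hh => ?_⟩
  rcases hh with hh | hh
  · have b1 : HU V ((V ⧸ W) × l2 H) := (hs W).trans (HU.prod HU.refl (HU_of_sphere hh))
    exact HU_imp_sphere (fin_step b1 e2)
  · have b1 : HU V (W × l2 H) :=
      ((hs W).trans HU_comm).trans (HU.prod HU.refl (HU_of_sphere hh))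
    exact HU_imp_sphere (fin_step b1 e2)

theorem main1 (X H₁ H₂ : Type) [NormedAddCommGroup X] [NormedSpace ℝ X] [CompleteSpace X]
    [NormedAddCommGroup H₁] [InnerProductSpace ℝ H₁] [NormedAddCommGroup H₂]
    [InnerProductSpace ℝ H₂] (Y : Submodule ℝ X) [IsClosed (Y : Set X)]
    (hX : SuperRefl X) (h1 : SphereEquiv Y H₁) (h2 : SphereEquiv (X ⧸ Y) H₂) :
    SphereEquiv X (WithLp 2 (H₂ × H₁)) := by
  have a : HU X ((X ⧸ Y) × Y) := HU_of_superRefl X hX Y
  have b : HU ((X ⧸ Y) × Y) (H₂ × H₁) := HU.prod (HU_of_sphere h2) (HU_of_sphere h1)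
  have c : HU (H₂ × H₁) (WithLp 2 (H₂ × H₁)) :=
    HU_of_cle (WithLp.prodContinuousLinearEquiv 2 ℝ H₂ H₁).symm
  exact HU_imp_sphere ((a.trans b).trans c)

theorem main2 (X H : Type) [NormedAddCommGroup X] [NormedSpace ℝ X] [CompleteSpace X]
    [NormedAddCommGroup H] [InnerProductSpace ℝ H]
    (Y : Submodule ℝ X) [hY : IsClosed (Y : Set X)]
    (hX : SuperRefl X) (h : SphereEquiv X (l2 H)) :
    Absorbed H Y ∧ Absorbed H (X ⧸ Y) ∧
      ∀ (K : Submodule ℝ Y) [IsClosed (K : Set Y)], Absorbed H (Y ⧸ K) := by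
  have a : HU X ((X ⧸ Y) × Y) := HU_of_superRefl X hX Y
  have hXH : HU X (l2 H) := HU_of_sphere h
  have : CompleteSpace Y := hY.completeSpace_coe
  have hYs : SuperRefl Y := superRefl_sub X hX Y
  refine ⟨absorbed_of hXH a (fun W _ => HU_of_superRefl Y hYs W),
    absorbed_of hXH (a.trans HU_comm) (fun W _ => HU_quot hX Y W), fun K _ => ?_⟩
  have aY : HU Y ((Y ⧸ K) × K) := HU_of_superRefl Y hYs K
  have a' : HU X (((X ⧸ Y) × K) × (Y ⧸ K)) :=
    ((a.trans (HU.prod HU.refl (aY.trans HU_comm))).trans HU_assoc.symm)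
  exact absorbed_of hXH a' (fun W _ => HU_quot hYs K W)

/-- Part 1: three-space property.  Part 2: if `X` is superreflexive and its unit sphere is
uniformly homeomorphic to that of the Hilbert space `ℓ₂(H)`, then every closed subspace, quotient
and subquotient `V` of `X` is absorbed by `ℓ₂(H)`, and has the unit sphere of `ℓ₂(H)` as soon as
one closed subspace or one quotient of `V` has. -/
theorem result :
    (∀ (X H₁ H₂ : Type) [NormedAddCommGroup X] [NormedSpace ℝ X] [CompleteSpace X]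
        [NormedAddCommGroup H₁] [InnerProductSpace ℝ H₁] [NormedAddCommGroup H₂]
        [InnerProductSpace ℝ H₂] (Y : Submodule ℝ X) [IsClosed (Y : Set X)],
        SuperRefl X → SphereEquiv Y H₁ → SphereEquiv (X ⧸ Y) H₂ →
        SphereEquiv X (WithLp 2 (H₂ × H₁))) ∧
    (∀ (X H : Type) [NormedAddCommGroup X] [NormedSpace ℝ X] [CompleteSpace X]
        [NormedAddCommGroup H] [InnerProductSpace ℝ H] [CompleteSpace H]
        (Y : Submodule ℝ X) [IsClosed (Y : Set X)],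
        SuperRefl X → SphereEquiv X (l2 H) →
        Absorbed H Y ∧ Absorbed H (X ⧸ Y) ∧
          ∀ (K : Submodule ℝ Y) [IsClosed (K : Set Y)], Absorbed H (Y ⧸ K)) :=
  ⟨fun X H₁ H₂ _ _ _ _ _ _ _ Y _ hX h1 h2 => main1 X H₁ H₂ Y hX h1 h2,
    fun X H _ _ _ _ _ _ Y _ hX h => main2 X H Y hX h⟩

end Pool.Agent.Results.MP_0402b8_an.Subspaces
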